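import Pool.Agent.W2helper75.FD.Stm4

/-!
# PIECE CAS of project FD, part 3: the three cases
-/

set_option autoImplicit false

open MeasureTheory ProbabilityTheory Filter Topology
open scoped ENNReal NNReal

namespace Pool.Agent.W2helper51.FD

open Pool.Agent.W2helper75.FD

/-- if the kernel is finite then the group is virtually cyclic -/
lemma ker_inf (Γ : Type) [Group Γ] (H : Subgroup Γ) (hH : H.FiniteIndex)
    (f : H →* Multiplicative ℤ) (hf : Function.Surjective f)
    (hn : ¬ ∃ C : Subgroup Γ, C.FiniteIndex ∧ IsCyclic C) : Infinite f.ker := by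
  by_contra hinf
  rw [not_infinite_iff_finite] at hinf
  apply hn
  obtain ⟨t, ht⟩ := hf (Multiplicative.ofAdd 1)
  have hsurj : Function.Surjective
      (fun k : f.ker => (QuotientGroup.mk (k : H) : H ⧸ Subgroup.zpowers t)) := by
    intro q
    induction q using QuotientGroup.induction_on with
    | H g =>
      refine ⟨⟨g * t ^ (-(Multiplicative.toAdd (f g))), ?_⟩, ?_⟩
      · rw [MonoidHom.mem_ker, map_mul, map_zpow, ht]
        apply Multiplicative.toAdd.injective
        simp
      · change (QuotientGroup.mk (g * t ^ (-(Multiplicative.toAdd (f g)))) :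
          H ⧸ Subgroup.zpowers t) = QuotientGroup.mk g
        rw [QuotientGroup.eq]
        rw [Subgroup.mem_zpowers_iff]
        exact ⟨Multiplicative.toAdd (f g), by group⟩
  have hfin : Finite (H ⧸ Subgroup.zpowers t) := Finite.of_surjective _ hsurj
  have hfi : (Subgroup.zpowers t).FiniteIndex := Subgroup.finiteIndex_of_finite_quotient
  refine ⟨Subgroup.zpowers (t : Γ), ?_, inferInstance⟩
  have he : (Subgroup.zpowers t).map H.subtype = Subgroup.zpowers (t : Γ) := by
    rw [MonoidHom.map_zpowers]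
    rfl
  refine ⟨?_⟩
  rw [← he, Subgroup.index_map_subtype]
  exact mul_ne_zero hfi.index_ne_zero hH.index_ne_zero

/-- CAS -/
theorem cas (h1 : P_CHR) (h2 : P_UP) (h3 : P_DSC) : P_CAS := by
  intro Γ _ hFG hV hn
  have hinf : Infinite Γ := by
    by_contra hfin
    rw [not_infinite_iff_finite] at hfin
    exact hn ⟨⊥, inferInstance, inferInstance⟩
  obtain ⟨H, f, hH, hf⟩ := hV Γ (MonoidHom.id Γ) (fun _ _ h => h) hFG hinf
  by_cases hfg : f.ker.FG
  swap
  · exact Or.inr (Or.inl ⟨H, f, hH, hf, hfg⟩)
  have hK : Group.FG f.ker := (Group.fg_iff_subgroup_fg f.ker).mpr hfg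
  have hKi : Infinite f.ker := ker_inf Γ H hH f hf hn
  obtain ⟨K', f', hK', hf'⟩ := hV f.ker (H.subtype.comp f.ker.subtype)
    (H.subtype_injective.comp f.ker.subtype_injective) hK hKi
  obtain ⟨K₁, hK₁, hchar, φ, x, hφx⟩ := h1 f.ker hK K' f' hK' hf'
  let e : K₁ ≃* K₁.map f.ker.subtype := K₁.equivMapOfInjective f.ker.subtype
    f.ker.subtype_injective
  have hnorm : (K₁.map f.ker.subtype).Normal := ConjAct.normal_of_characteristic_of_normal
  have hle : K₁.map f.ker.subtype ≤ f.ker := Subgroup.map_subtype_le K₁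
  have hsub : (K₁.map f.ker.subtype).subgroupOf f.ker = K₁ :=
    Subgroup.comap_map_eq_self_of_injective f.ker.subtype_injective K₁
  have hfi : ((K₁.map f.ker.subtype).subgroupOf f.ker).FiniteIndex := by
    rw [hsub]
    exact hK₁
  have hK₁fg : Group.FG K₁ := Subgroup.fg_of_index_ne_zero K₁
  have hfg' : Group.FG (K₁.map f.ker.subtype) := Group.fg_of_surjective (f := e.toMonoidHom)
    e.surjective
  have h4 := h3 H f (K₁.map f.ker.subtype) hf hnorm hle hfi hfg' (φ.comp e.symm.toMonoidHom) (e x)
    (by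
      change φ (e.symm (e x)) ≠ 1
      rw [e.symm_apply_apply]
      exact hφx)
  rcases h4 with h | h
  · exact Or.inl ((h2 Γ H hH).1 h)
  · exact Or.inr (Or.inr ((h2 Γ H hH).2 h))

end Pool.Agent.W2helper51.FD
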