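import Pool.Agent.W2helper75.FD.Stm3
import Pool.Agent.W2helper47.FD.Trn

/-!
# PIECE GRN of project FD, part 3: the killed Green function
-/

set_option autoImplicit false
set_option linter.unusedSectionVars false

open MeasureTheory ProbabilityTheory Filter Topology
open scoped ENNReal NNReal

namespace Pool.Agent.W2helper51.FD

open Pool.Agent.W2helper75.FD

variable {X S : Type} [Fintype S] [Nonempty S] (mx : X → S → X) (inv : S → S) (A : Set X) (o : X)

lemma qk_zero (x : X) (h : ¬ (x = o ∧ x ∈ A)) : qk mx A o 0 x = 0 := by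
  unfold qk
  exact if_neg h

lemma qk_succ (k : ℕ) (x : X) (h : x ∈ A) :
    qk mx A o (k + 1) x = (∑ s, qk mx A o k (mx x s)) / (Fintype.card S : ℝ) := by
  rw [qk]
  exact if_pos h

lemma qk_out (k : ℕ) (x : X) (h : x ∉ A) : qk mx A o k x = 0 := by
  cases k with
  | zero => exact qk_zero mx A o x fun h' => h h'.2
  | succ k =>
    rw [qk]
    exact if_neg h

lemma qk_nonneg (k : ℕ) (x : X) : 0 ≤ qk mx A o k x := by
  induction k generalizing x with
  | zero =>
    unfold qk
    split_ifs <;> norm_num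
  | succ k ih =>
    by_cases h : x ∈ A
    · rw [qk_succ mx A o k x h]
      exact div_nonneg (Finset.sum_nonneg fun s _ => ih _) (Nat.cast_nonneg _)
    · rw [qk_out mx A o (k + 1) x h]

/-- the killed Green function up to time `n` -/
noncomputable def gk (n : ℕ) (x : X) : ℝ := ∑ k ∈ Finset.range n, qk mx A o k x

lemma gk_nonneg (n : ℕ) (x : X) : 0 ≤ gk mx A o n x :=
  Finset.sum_nonneg fun k _ => qk_nonneg mx A o k x

lemma gk_out (n : ℕ) (x : X) (h : x ∉ A) : gk mx A o n x = 0 :=
  Finset.sum_eq_zero fun k _ => qk_out mx A o k x h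

lemma qk_fin (h1 : ∀ s, inv (inv s) = s) (h2 : ∀ x s, mx (mx x s) (inv s) = x) (k : ℕ) :
    (Function.support (qk mx A o k)).Finite := by
  induction k with
  | zero =>
    refine (Set.finite_singleton o).subset fun x hx => ?_
    by_contra hne
    apply hx
    exact qk_zero mx A o x fun h => hne h.1
  | succ k ih =>
    refine (Set.finite_iUnion fun s : S => ih.preimage
      ((Pool.Agent.W2helper47.FD.ev mx inv h1 h2 s).injective.injOn)).subset fun x hx => ?_
    by_contra hne
    apply hx
    by_cases h : x ∈ A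
    · rw [qk_succ mx A o k x h, Finset.sum_eq_zero, zero_div]
      intro s _
      by_contra h0
      exact hne (Set.mem_iUnion.mpr ⟨s, h0⟩)
    · exact qk_out mx A o (k + 1) x h

lemma gk_fin (h1 : ∀ s, inv (inv s) = s) (h2 : ∀ x s, mx (mx x s) (inv s) = x) (n : ℕ) :
    (Function.support (gk mx A o n)).Finite := by
  refine (Set.Finite.biUnion (Finset.range n).finite_toSet
    fun k _ => qk_fin mx inv A o h1 h2 k).subset fun x hx => ?_
  by_contra hne
  apply hx
  unfold gk
  refine Finset.sum_eq_zero fun k hk => ?_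
  by_contra h0
  exact hne (Set.mem_biUnion hk h0)

lemma P_gk (n : ℕ) (x : X) (hx : x ∈ A) : ∑ s, gk mx A o n (mx x s) =
    (Fintype.card S : ℝ) * (gk mx A o n x - qk mx A o 0 x + qk mx A o n x) := by
  have hc : (Fintype.card S : ℝ) ≠ 0 := by
    exact_mod_cast Fintype.card_ne_zero
  have h1 : ∀ k, ∑ s, qk mx A o k (mx x s) = (Fintype.card S : ℝ) * qk mx A o (k + 1) x := by
    intro k
    rw [qk_succ mx A o k x hx, mul_div_cancel₀ _ hc]
  have h2 : gk mx A o n x - qk mx A o 0 x + qk mx A o n x =
      ∑ k ∈ Finset.range n, qk mx A o (k + 1) x := by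
    have h3 := Finset.sum_range_succ (fun k => qk mx A o k x) n
    have h4 := Finset.sum_range_succ' (fun k => qk mx A o k x) n
    unfold gk
    linarith
  rw [h2, Finset.mul_sum]
  unfold gk
  rw [Finset.sum_comm]
  exact Finset.sum_congr rfl fun k _ => h1 k

lemma en_le (h1 : ∀ s, inv (inv s) = s) (h2 : ∀ x s, mx (mx x s) (inv s) = x) (ho : o ∈ A)
    (n : ℕ) : Pool.Agent.W2helper47.FD.en mx (gk mx A o n) ≤
      2 * Fintype.card S * gk mx A o n o := by
  have hf := gk_fin mx inv A o h1 h2 n
  rw [(Pool.Agent.W2helper47.FD.en_gen mx inv h1 h2 (gk mx A o n) hf).2]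
  have s1 : Summable fun x => gk mx A o n x ^ 2 :=
    Pool.Agent.W2helper47.FD.sm _ hf fun x h => by simp [h]
  have s4 : Summable fun x => gk mx A o n x * qk mx A o 0 x :=
    Pool.Agent.W2helper47.FD.sm _ hf fun x h => by simp [h]
  have s5 : Summable fun x => gk mx A o n x * qk mx A o n x :=
    Pool.Agent.W2helper47.FD.sm _ hf fun x h => by simp [h]
  have e5 : ∑' x, gk mx A o n x * qk mx A o 0 x = gk mx A o n o := by
    rw [tsum_eq_single o]
    · have : qk mx A o 0 o = 1 := if_pos ⟨rfl, ho⟩
      rw [this, mul_one]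
    · intro x hx
      rw [qk_zero mx A o x fun h => hx h.1, mul_zero]
  have e6 : 0 ≤ ∑' x, gk mx A o n x * qk mx A o n x := tsum_nonneg fun x =>
    mul_nonneg (gk_nonneg mx A o n x) (qk_nonneg mx A o n x)
  have e7 : ∑' x, gk mx A o n x * ∑ s, gk mx A o n (mx x s) = (Fintype.card S : ℝ) *
      (∑' x, gk mx A o n x ^ 2 - ∑' x, gk mx A o n x * qk mx A o 0 x +
        ∑' x, gk mx A o n x * qk mx A o n x) := by
    rw [← Summable.tsum_sub s1 s4, ← Summable.tsum_add (s1.sub s4) s5, ← tsum_mul_left]
    refine tsum_congr fun x => ?_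
    by_cases hx : x ∈ A
    · rw [P_gk mx A o n x hx]
      ring
    · rw [gk_out mx A o n x hx]
      ring
  rw [e7, e5]
  have hc : (0 : ℝ) ≤ Fintype.card S := Nat.cast_nonneg _
  have h8 := mul_nonneg hc e6
  linarith

lemma green_o (h1 : ∀ s, inv (inv s) = s) (h2 : ∀ x s, mx (mx x s) (inv s) = x) (ho : o ∈ A)
    (l : List S) (hl : run mx o l ∉ A) (n : ℕ) :
    gk mx A o n o ≤ 2 * (Fintype.card S : ℝ) * (l.length : ℝ) ^ 2 := by
  classical
  set g := gk mx A o n with hg
  have hs := (Pool.Agent.W2helper47.FD.en_gen mx inv h1 h2 g (gk_fin mx inv A o h1 h2 n)).1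
  have hD : Pool.Agent.W2helper47.FD.en mx g ≤ 2 * Fintype.card S * g o :=
    en_le mx inv A o h1 h2 ho n
  have hgo : 0 ≤ g o := gk_nonneg mx A o n o
  have hw := Pool.Agent.W2helper47.FD.word mx inv h1 h2 g hs 0 l {o} (by simp)
  rw [Finset.sum_singleton, pow_zero, one_mul] at hw
  have hz : g (run mx o l) = 0 := gk_out mx A o n _ hl
  rw [hz, sub_zero, abs_of_nonneg hgo] at hw
  have h5 : √(Pool.Agent.W2helper47.FD.en mx g) ^ 2 ≤ 2 * Fintype.card S * g o := by
    rw [Real.sq_sqrt (Pool.Agent.W2helper47.FD.en_nonneg mx g)]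
    exact hD
  have h6 : g o ^ 2 ≤ 2 * (Fintype.card S : ℝ) * (l.length : ℝ) ^ 2 * g o := by
    calc g o ^ 2 ≤ (l.length * √(Pool.Agent.W2helper47.FD.en mx g)) ^ 2 :=
          pow_le_pow_left₀ hgo hw 2
      _ = (l.length : ℝ) ^ 2 * √(Pool.Agent.W2helper47.FD.en mx g) ^ 2 := by ring
      _ ≤ (l.length : ℝ) ^ 2 * (2 * Fintype.card S * g o) :=
        mul_le_mul_of_nonneg_left h5 (by positivity)
      _ = 2 * (Fintype.card S : ℝ) * (l.length : ℝ) ^ 2 * g o := by ring
  rcases hgo.eq_or_lt with h | h
  · rw [← h]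
    positivity
  · rw [sq] at h6
    exact le_of_mul_le_mul_right h6 h

/-- GRN -/
theorem grn : P_GRN := by
  classical
  intro X S _ _ mx inv h1 h2 A o l hl n x
  change gk mx A o n x ≤ _
  set B : ℝ := 2 * (Fintype.card S : ℝ) * (l.length : ℝ) ^ 2 with hB
  have hB0 : 0 ≤ B := by positivity
  by_cases ho : o ∈ A
  · induction n generalizing x with
    | zero =>
      simp only [gk, Finset.range_zero, Finset.sum_empty]
      exact hB0
    | succ n ih =>
      by_cases hx : x ∈ A
      · by_cases hxo : x = o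
        · rw [hxo]
          exact green_o mx inv A o h1 h2 ho l hl (n + 1)
        · have e : gk mx A o (n + 1) x =
              (∑ s, gk mx A o n (mx x s)) / (Fintype.card S : ℝ) := by
            have hc : (Fintype.card S : ℝ) ≠ 0 := by
              exact_mod_cast Fintype.card_ne_zero
            rw [P_gk mx A o n x hx, mul_div_cancel_left₀ _ hc,
              qk_zero mx A o x fun h => hxo h.1, sub_zero]
            unfold gk
            rw [Finset.sum_range_succ]
          rw [e, div_le_iff₀ (by exact_mod_cast Fintype.card_pos)]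
          refine (Finset.sum_le_sum fun s _ => ih (mx x s)).trans ?_
          rw [Finset.sum_const, Finset.card_univ, nsmul_eq_mul, mul_comm]
      · rw [gk_out mx A o (n + 1) x hx]
        exact hB0
  · have hz : ∀ k y, qk mx A o k y = 0 := by
      intro k
      induction k with
      | zero =>
        intro y
        refine qk_zero mx A o y fun h => ho ?_
        rw [← h.1]
        exact h.2
      | succ k ih =>
        intro y
        by_cases hy : y ∈ A
        · rw [qk_succ mx A o k y hy]
          simp [ih]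
        · exact qk_out mx A o (k + 1) y hy
    have : gk mx A o n x = 0 := Finset.sum_eq_zero fun k _ => hz k x
    rw [this]
    exact hB0

end Pool.Agent.W2helper51.FD
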